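import Mathlib

set_option autoImplicit false

namespace Pool.Agent.H583Z.Knead

open Set Filter Topology

/-- `f` restricted to `[-1,1]` is a unimodal map of the class `𝒰`, with turning point `c`. -/
structure IsUnimodal (f : ℝ → ℝ) (c : ℝ) : Prop where
  cont : ContinuousOn f (Icc (-1) 1)
  maps : MapsTo f (Icc (-1) 1) (Icc (-1) 1)
  left : f (-1) = -1
  right : f 1 = -1
  mem : c ∈ Ioo (-1 : ℝ) 1
  mono : StrictMonoOn f (Icc (-1) c)
  anti : StrictAntiOn f (Icc c 1)

/-- The coefficient `θ_i(x) ∈ {-1, 0, 1}`: the sign of the derivative of `f^{i+1}` at `x`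
(derivative taken within `[-1,1]`). -/
noncomputable def theta (f : ℝ → ℝ) (x : ℝ) (i : ℕ) : ℤ :=
  (SignType.sign (derivWithin (f^[i + 1]) (Icc (-1) 1) x) : ℤ)

/-- `a` is the kneading sequence of `f` (turning point `c`): each coefficient `θ_i(y)` is
eventually equal to `a i` as `y` increases to `f c`. -/
def IsKneading (f : ℝ → ℝ) (c : ℝ) (a : ℕ → ℤ) : Prop :=
  ∀ i : ℕ, ∀ᶠ y in 𝓝[<] (f c), theta f y i = a i

/-- The lexicographic order (weak form) on coefficient sequences. -/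
def LexLe (a b : ℕ → ℤ) : Prop :=
  a = b ∨ ∃ j : ℕ, (∀ i < j, a i = b i) ∧ a j < b j

/-- The quadratic family `F(x, μ) = (μ - 1) - μ x²`. -/
def quad (x μ : ℝ) : ℝ := (μ - 1) - μ * x ^ 2

/-- The `C¹` distance of the family `G(x, μ)` from the quadratic family, on `[-1,1] × (0,2]`. -/
noncomputable def c1dist (G : ℝ → ℝ → ℝ) : ENNReal :=
  ⨆ x ∈ Icc (-1 : ℝ) 1, ⨆ μ ∈ Ioc (0 : ℝ) 2, ENNReal.ofReal
    (|G x μ - quad x μ| + |derivWithin (fun t => G t μ - quad t μ) (Icc (-1) 1) x| +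
      |derivWithin (fun m => G x m - quad x m) (Ioc 0 2) μ|)

end Pool.Agent.H583Z.Knead
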