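import Pool.Agent.H583Z.Knead.Defs

set_option autoImplicit false

namespace Pool.Agent.H583Z.Knead

open Set Filter Topology

/-- a function whose derivative has an eventually constant sign on the left of `v` is eventually
on one side of `c`. -/
lemma side_of_pos {u : ℝ → ℝ} (hu : Differentiable ℝ u) {v : ℝ} (c : ℝ)
    (h : ∀ᶠ y in 𝓝[<] v, 0 < deriv u y) :
    (∀ᶠ y in 𝓝[<] v, u y < c) ∨ (∀ᶠ y in 𝓝[<] v, c < u y) := by
  obtain ⟨l, hl, hsub⟩ := (mem_nhdsLT_iff_exists_Ioo_subset).1 h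
  have hm : StrictMonoOn u (Ioo l v) := by
    apply strictMonoOn_of_deriv_pos (convex_Ioo l v) hu.continuous.continuousOn
    intro x hx
    rw [interior_Ioo] at hx
    exact hsub hx
  by_cases hex : ∃ y0 ∈ Ioo l v, c ≤ u y0
  · obtain ⟨y0, hy0, hc⟩ := hex
    right
    filter_upwards [Ioo_mem_nhdsLT hy0.2] with y hy
    exact lt_of_le_of_lt hc (hm hy0 ⟨hy0.1.trans hy.1, hy.2⟩ hy.1)
  · left
    push Not at hex
    filter_upwards [Ioo_mem_nhdsLT (show l < v from hl)] with y hy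
    exact hex y hy

lemma side_of_sign {u : ℝ → ℝ} (hu : Differentiable ℝ u) {v : ℝ} (c : ℝ)
    (h : (∀ᶠ y in 𝓝[<] v, 0 < deriv u y) ∨ (∀ᶠ y in 𝓝[<] v, deriv u y < 0)) :
    (∀ᶠ y in 𝓝[<] v, u y < c) ∨ (∀ᶠ y in 𝓝[<] v, c < u y) := by
  rcases h with h | h
  · exact side_of_pos hu c h
  · have h' : ∀ᶠ y in 𝓝[<] v, 0 < deriv (fun t => - u t) y := by
      filter_upwards [h] with y hy
      rw [deriv.fun_neg]
      linarith
    rcases side_of_pos hu.fun_neg (-c) h' with h1 | h1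
    · right
      filter_upwards [h1] with y hy
      linarith
    · left
      filter_upwards [h1] with y hy
      linarith

variable {f : ℝ → ℝ} {c : ℝ}

lemma IsUnimodal.ev_mem (hU : IsUnimodal f c) : ∀ᶠ y in 𝓝[<] (f c), y ∈ Ioo (-1 : ℝ) 1 := by
  have h1 : -1 < f c := by
    have := hU.mono (show (-1 : ℝ) ∈ Icc (-1) c from ⟨le_rfl, hU.mem.1.le⟩)
      (show c ∈ Icc (-1) c from ⟨hU.mem.1.le, le_rfl⟩) hU.mem.1
    rwa [hU.left] at this
  have h2 : f c ≤ 1 := (hU.maps ⟨hU.mem.1.le, hU.mem.2.le⟩).2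
  filter_upwards [Ioo_mem_nhdsLT h1] with y hy
  exact ⟨hy.1, lt_of_lt_of_le hy.2 h2⟩

lemma sign_iter (hU : IsUnimodal f c) (hd : Differentiable ℝ f)
    (hpos : ∀ x ∈ Icc (-1 : ℝ) 1, x < c → 0 < deriv f x)
    (hneg : ∀ x ∈ Icc (-1 : ℝ) 1, c < x → deriv f x < 0) (j : ℕ) :
    (∀ᶠ y in 𝓝[<] (f c), 0 < deriv (f^[j]) y) ∨ (∀ᶠ y in 𝓝[<] (f c), deriv (f^[j]) y < 0) := by
  induction j with
  | zero =>
    left
    filter_upwards with y
    simp
  | succ j ih =>
    have hdj : Differentiable ℝ (f^[j]) := hd.iterate j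
    have hchain : ∀ y, deriv (f^[j + 1]) y = deriv f (f^[j] y) * deriv (f^[j]) y := by
      intro y
      rw [Function.iterate_succ']
      exact deriv_comp y (hd _) (hdj y)
    have hmem : ∀ᶠ y in 𝓝[<] (f c), f^[j] y ∈ Icc (-1 : ℝ) 1 := by
      filter_upwards [hU.ev_mem] with y hy
      exact (hU.maps.iterate j) ⟨hy.1.le, hy.2.le⟩
    rcases side_of_sign hdj c ih with h1 | h1
    · rcases ih with h2 | h2
      · left
        filter_upwards [h1, h2, hmem] with y a1 a2 a3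
        rw [hchain]
        exact mul_pos (hpos _ a3 a1) a2
      · right
        filter_upwards [h1, h2, hmem] with y a1 a2 a3
        rw [hchain]
        exact mul_neg_of_pos_of_neg (hpos _ a3 a1) a2
    · rcases ih with h2 | h2
      · right
        filter_upwards [h1, h2, hmem] with y a1 a2 a3
        rw [hchain]
        exact mul_neg_of_neg_of_pos (hneg _ a3 a1) a2
      · left
        filter_upwards [h1, h2, hmem] with y a1 a2 a3
        rw [hchain]
        exact mul_pos_of_neg_of_neg (hneg _ a3 a1) a2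

lemma theta_eq {y : ℝ} (hy : y ∈ Ioo (-1 : ℝ) 1) (i : ℕ) :
    theta f y i = (SignType.sign (deriv (f^[i + 1]) y) : ℤ) := by
  unfold theta
  rw [derivWithin_of_mem_nhds (Icc_mem_nhds hy.1 hy.2)]

lemma exists_kneading (hU : IsUnimodal f c) (hd : Differentiable ℝ f)
    (hpos : ∀ x ∈ Icc (-1 : ℝ) 1, x < c → 0 < deriv f x)
    (hneg : ∀ x ∈ Icc (-1 : ℝ) 1, c < x → deriv f x < 0) :
    ∃ a, IsKneading f c a := by
  have : ∀ i : ℕ, ∃ s : ℤ, ∀ᶠ y in 𝓝[<] (f c), theta f y i = s := by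
    intro i
    rcases sign_iter hU hd hpos hneg (i + 1) with h | h
    · refine ⟨1, ?_⟩
      filter_upwards [h, hU.ev_mem] with y a1 a2
      rw [theta_eq a2, sign_pos a1]
      rfl
    · refine ⟨-1, ?_⟩
      filter_upwards [h, hU.ev_mem] with y a1 a2
      rw [theta_eq a2, sign_neg a1]
      rfl
  choose a ha using this
  exact ⟨a, ha⟩

lemma kneading_zero_pos (hU : IsUnimodal f c)
    (hpos : ∀ x ∈ Icc (-1 : ℝ) 1, x < c → 0 < deriv f x) {a : ℕ → ℤ} (ha : IsKneading f c a)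
    (hc : f c ≤ c) : a 0 = 1 := by
  have h : ∀ᶠ y in 𝓝[<] (f c), theta f y 0 = 1 := by
    filter_upwards [hU.ev_mem, self_mem_nhdsWithin] with y a2 a3
    have : 0 < deriv f y := hpos y ⟨a2.1.le, a2.2.le⟩ (lt_of_lt_of_le a3 hc)
    rw [theta_eq a2]
    simp only [zero_add, Function.iterate_one]
    rw [sign_pos this]
    rfl
  obtain ⟨y, h1, h2⟩ := ((ha 0).and h).exists
  rw [← h1, h2]

lemma kneading_zero_neg (hU : IsUnimodal f c)
    (hneg : ∀ x ∈ Icc (-1 : ℝ) 1, c < x → deriv f x < 0) {a : ℕ → ℤ} (ha : IsKneading f c a)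
    (hc : c < f c) : a 0 = -1 := by
  have h : ∀ᶠ y in 𝓝[<] (f c), theta f y 0 = -1 := by
    filter_upwards [hU.ev_mem, Ioo_mem_nhdsLT hc] with y a2 a3
    have : deriv f y < 0 := hneg y ⟨a2.1.le, a2.2.le⟩ a3.1
    rw [theta_eq a2]
    simp only [zero_add, Function.iterate_one]
    rw [sign_neg this]
    rfl
  obtain ⟨y, h1, h2⟩ := ((ha 0).and h).exists
  rw [← h1, h2]

lemma not_lexLe {a b : ℕ → ℤ} (h : b 0 < a 0) : ¬ LexLe a b := by
  rintro (rfl | ⟨j, h1, h2⟩)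
  · exact lt_irrefl _ h
  · rcases Nat.eq_zero_or_pos j with rfl | hj
    · exact lt_asymm h h2
    · have := h1 0 hj
      omega

end Pool.Agent.H583Z.Knead
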