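import Pool.Agent.H583Z.Knead.Exist

set_option autoImplicit false

namespace Pool.Agent.H583Z.Knead

open Set Filter Topology

noncomputable def phi (δ t : ℝ) : ℝ := δ ^ 2 * (1 - t ^ 2) / (δ ^ 2 + t ^ 2)

noncomputable def amp (η μ : ℝ) : ℝ := 4 * η * (μ - 1) ^ 2 / (η ^ 2 + (μ - 1) ^ 2)

noncomputable def hmap (δ η μ t : ℝ) : ℝ := t - amp η μ * phi δ t

noncomputable def fam (δ η x μ : ℝ) : ℝ := (μ - 1) - μ * (hmap δ η μ x) ^ 2

lemma phi_smooth {δ : ℝ} (hδ : 0 < δ) : ContDiff ℝ ⊤ (phi δ) := by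
  unfold phi
  apply ContDiff.div (by fun_prop) (by fun_prop)
  intro t
  positivity

lemma amp_smooth {η : ℝ} (hη : 0 < η) : ContDiff ℝ ⊤ (amp η) := by
  unfold amp
  apply ContDiff.div (by fun_prop) (by fun_prop)
  intro t
  positivity

lemma fam_smooth {δ η : ℝ} (hδ : 0 < δ) (hη : 0 < η) :
    ContDiff ℝ ⊤ (Function.uncurry (fam δ η)) := by
  have h1 : ContDiff ℝ ⊤ (fun p : ℝ × ℝ => phi δ p.1) := (phi_smooth hδ).comp contDiff_fst
  have h2 : ContDiff ℝ ⊤ (fun p : ℝ × ℝ => amp η p.2) := (amp_smooth hη).comp contDiff_snd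
  have : Function.uncurry (fam δ η) =
      fun p : ℝ × ℝ => (p.2 - 1) - p.2 * (p.1 - amp η p.2 * phi δ p.1) ^ 2 := by
    funext p
    rfl
  rw [this]
  exact (contDiff_snd.sub contDiff_const).sub
    (contDiff_snd.mul ((contDiff_fst.sub (h2.mul h1)).pow 2))

lemma phi_nonneg {δ t : ℝ} (hδ : 0 < δ) (ht : t ∈ Icc (-1 : ℝ) 1) : 0 ≤ phi δ t := by
  unfold phi
  have : 0 ≤ 1 - t ^ 2 := by nlinarith [ht.1, ht.2]
  positivity

lemma phi_le_one {δ : ℝ} (hδ : 0 < δ) (t : ℝ) : phi δ t ≤ 1 := by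
  unfold phi
  rw [div_le_one (by positivity)]
  nlinarith [sq_nonneg t, sq_nonneg δ, mul_nonneg (sq_nonneg t) (sq_nonneg δ)]

lemma abs_mul_phi_le {δ t : ℝ} (hδ : 0 < δ) (ht : t ∈ Icc (-1 : ℝ) 1) :
    |2 * t * phi δ t| ≤ δ := by
  have h0 := phi_nonneg hδ ht
  rw [abs_mul, abs_of_nonneg h0, abs_mul, abs_two]
  unfold phi
  rw [← mul_div_assoc, div_le_iff₀ (by positivity)]
  have h1 : 0 ≤ 1 - t ^ 2 := by nlinarith [ht.1, ht.2]
  have h2 : 1 - t ^ 2 ≤ 1 := by nlinarith [sq_nonneg t]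
  have h3 : 2 * |t| * δ ≤ δ ^ 2 + t ^ 2 := by
    have := sq_nonneg (|t| - δ)
    rw [← sq_abs t]
    nlinarith
  have h4 : 0 ≤ 2 * |t| * δ ^ 2 := by positivity
  calc 2 * |t| * (δ ^ 2 * (1 - t ^ 2)) = (2 * |t| * δ ^ 2) * (1 - t ^ 2) := by ring
    _ ≤ (2 * |t| * δ ^ 2) * 1 := by gcongr
    _ = δ * (2 * |t| * δ) := by ring
    _ ≤ δ * (δ ^ 2 + t ^ 2) := by gcongr

lemma amp_nonneg {η : ℝ} (hη : 0 < η) (μ : ℝ) : 0 ≤ amp η μ := by
  unfold amp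
  positivity

lemma amp_le {η : ℝ} (hη : 0 < η) (μ : ℝ) : amp η μ ≤ 4 * η := by
  unfold amp
  rw [div_le_iff₀ (by positivity)]
  have : 0 ≤ 4 * η * η ^ 2 := by positivity
  nlinarith

lemma amp_hasDerivAt {η : ℝ} (hη : 0 < η) (μ : ℝ) :
    HasDerivAt (amp η) (8 * η ^ 3 * (μ - 1) / (η ^ 2 + (μ - 1) ^ 2) ^ 2) μ := by
  have h0 : HasDerivAt (fun m : ℝ => (m - 1) ^ 2) (2 * (μ - 1)) μ := by
    simpa using ((hasDerivAt_id μ).sub_const 1).fun_pow 2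
  have h1 := (h0.const_mul (4 * η)).fun_div (h0.const_add (η ^ 2)) (by positivity)
  have e : 8 * η ^ 3 * (μ - 1) / (η ^ 2 + (μ - 1) ^ 2) ^ 2 =
      (4 * η * (2 * (μ - 1)) * (η ^ 2 + (μ - 1) ^ 2) - 4 * η * (μ - 1) ^ 2 * (2 * (μ - 1))) /
        (η ^ 2 + (μ - 1) ^ 2) ^ 2 := by
    congr 1
    ring
  rw [e]
  exact h1

lemma abs_amp_deriv_le {η : ℝ} (hη : 0 < η) (μ : ℝ) :
    |8 * η ^ 3 * (μ - 1) / (η ^ 2 + (μ - 1) ^ 2) ^ 2| ≤ 4 := by
  rw [abs_div, abs_of_pos (by positivity : 0 < (η ^ 2 + (μ - 1) ^ 2) ^ 2),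
    div_le_iff₀ (by positivity), abs_mul, abs_of_pos (by positivity : 0 < 8 * η ^ 3)]
  have h3 : 2 * η * |μ - 1| ≤ η ^ 2 + (μ - 1) ^ 2 := by
    have := sq_nonneg (|μ - 1| - η)
    rw [← sq_abs (μ - 1)]
    nlinarith
  have h4 : η ^ 2 ≤ η ^ 2 + (μ - 1) ^ 2 := by nlinarith [sq_nonneg (μ - 1)]
  calc 8 * η ^ 3 * |μ - 1| = 4 * ((2 * η * |μ - 1|) * η ^ 2) := by ring
    _ ≤ 4 * ((η ^ 2 + (μ - 1) ^ 2) * (η ^ 2 + (μ - 1) ^ 2)) := by gcongr
    _ = 4 * (η ^ 2 + (μ - 1) ^ 2) ^ 2 := by ring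

lemma bound_iter {P : ℝ → ℝ} (hP : ContDiff ℝ ⊤ P) (k : ℕ) :
    ∃ M : ℝ, 0 < M ∧ ∀ j ≤ k, ∀ x ∈ Icc (-1 : ℝ) 1, |iteratedDeriv j P x| ≤ M := by
  have h : ∀ j : ℕ, ∃ M : ℝ, ∀ x ∈ Icc (-1 : ℝ) 1, |iteratedDeriv j P x| ≤ M := by
    intro j
    have hc : Continuous (iteratedDeriv j P) := hP.continuous_iteratedDeriv j le_top
    obtain ⟨M, hM⟩ := (isCompact_Icc (a := (-1 : ℝ)) (b := 1)).exists_bound_of_continuousOn
      hc.continuousOn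
    exact ⟨M, fun x hx => by simpa using hM x hx⟩
  choose M hM using h
  refine ⟨1 + ∑ j ∈ Finset.range (k + 1), |M j|, by positivity, fun j hj x hx => ?_⟩
  have h1 : |M j| ≤ ∑ j ∈ Finset.range (k + 1), |M j| :=
    Finset.single_le_sum (f := fun j => |M j|) (fun _ _ => abs_nonneg _)
      (Finset.mem_range.2 (by omega))
  have h2 := hM j x hx
  have h3 := le_abs_self (M j)
  linarith

lemma fam_sub_quad (δ η μ t : ℝ) : fam δ η t μ - quad t μ =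
    (μ * amp η μ) * (2 * t * phi δ t) - (μ * amp η μ ^ 2) * (phi δ t ^ 2) := by
  unfold fam quad hmap
  ring

lemma iter_fam_sub_quad {δ η : ℝ} (hδ : 0 < δ) (μ : ℝ) (j : ℕ) (x : ℝ) :
    iteratedDeriv j (fun t => fam δ η t μ - quad t μ) x =
      (μ * amp η μ) * iteratedDeriv j (fun t => 2 * t * phi δ t) x -
        (μ * amp η μ ^ 2) * iteratedDeriv j (fun t => phi δ t ^ 2) x := by
  have hP : ContDiff ℝ ⊤ (fun t => 2 * t * phi δ t) :=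
    (contDiff_const.mul contDiff_id).mul (phi_smooth hδ)
  have hQ : ContDiff ℝ ⊤ (fun t => phi δ t ^ 2) := (phi_smooth hδ).pow 2
  have hP' : ContDiffAt ℝ j (fun t => (μ * amp η μ) * (2 * t * phi δ t)) x :=
    ((contDiff_const.mul hP).of_le le_top).contDiffAt
  have hQ' : ContDiffAt ℝ j (fun t => (μ * amp η μ ^ 2) * (phi δ t ^ 2)) x :=
    ((contDiff_const.mul hQ).of_le le_top).contDiffAt
  have e : (fun t => fam δ η t μ - quad t μ) =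
      (fun t => (μ * amp η μ) * (2 * t * phi δ t)) - fun t => (μ * amp η μ ^ 2) * (phi δ t ^ 2) := by
    funext t
    rw [fam_sub_quad]
    rfl
  rw [e, iteratedDeriv_sub hP' hQ', iteratedDeriv_const_mul_field, iteratedDeriv_const_mul_field]

lemma iter_bound {δ η : ℝ} (hδ : 0 < δ) (hη : 0 < η) (hη1 : 4 * η ≤ 1) {μ : ℝ}
    (hμ : μ ∈ Ioc (0 : ℝ) 2) {j : ℕ} {x M : ℝ}
    (h1 : |iteratedDeriv j (fun t => 2 * t * phi δ t) x| ≤ M)
    (h2 : |iteratedDeriv j (fun t => phi δ t ^ 2) x| ≤ M) :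
    |iteratedDeriv j (fun t => fam δ η t μ - quad t μ) x| ≤ 16 * η * M := by
  rw [iter_fam_sub_quad hδ]
  have a0 := amp_nonneg hη μ
  have a1 := amp_le hη μ
  have hM : 0 ≤ M := le_trans (abs_nonneg _) h1
  have b0 : 0 ≤ μ * amp η μ := mul_nonneg hμ.1.le a0
  have b1 : μ * amp η μ ≤ 8 * η := by nlinarith [hμ.1, hμ.2]
  have c0 : 0 ≤ μ * amp η μ ^ 2 := mul_nonneg hμ.1.le (sq_nonneg _)
  have c1 : μ * amp η μ ^ 2 ≤ 8 * η := by
    have : μ * amp η μ ^ 2 = (μ * amp η μ) * amp η μ := by ring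
    rw [this]
    nlinarith
  refine le_trans (abs_sub _ _) ?_
  rw [abs_mul, abs_mul (μ * amp η μ ^ 2), abs_of_nonneg b0, abs_of_nonneg c0]
  have d1 := mul_le_mul b1 h1 (abs_nonneg _) (by positivity)
  have d2 := mul_le_mul c1 h2 (abs_nonneg _) (by positivity)
  linarith

lemma dmu_bound {δ η : ℝ} (hδ : 0 < δ) (hδ1 : δ ≤ 1) (hη : 0 < η) (hη1 : 4 * η ≤ 1) {μ : ℝ}
    (hμ : μ ∈ Ioc (0 : ℝ) 2) {x : ℝ} (hx : x ∈ Icc (-1 : ℝ) 1) :
    |derivWithin (fun m => fam δ η x m - quad x m) (Ioc 0 2) μ| ≤ 8 * δ + 72 * η := by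
  set a' := 8 * η ^ 3 * (μ - 1) / (η ^ 2 + (μ - 1) ^ 2) ^ 2 with ha'
  have hA : HasDerivAt (amp η) a' μ := amp_hasDerivAt hη μ
  have hA4 : |a'| ≤ 4 := abs_amp_deriv_le hη μ
  have hD : HasDerivAt (fun m => fam δ η x m - quad x m)
      ((amp η μ + μ * a') * (2 * x * phi δ x) -
        (amp η μ ^ 2 + μ * (2 * amp η μ * a')) * (phi δ x ^ 2)) μ := by
    have e : (fun m => fam δ η x m - quad x m) = fun m =>
        (m * amp η m) * (2 * x * phi δ x) - (m * amp η m ^ 2) * (phi δ x ^ 2) := by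
      funext m
      rw [fam_sub_quad]
    rw [e]
    have h1 := ((hasDerivAt_id μ).fun_mul hA).mul_const (2 * x * phi δ x)
    have h2 := ((hasDerivAt_id μ).fun_mul (hA.fun_pow 2)).mul_const (phi δ x ^ 2)
    refine (h1.fun_sub h2).congr_deriv ?_
    simp
  rw [hD.hasDerivWithinAt.derivWithin (uniqueDiffOn_Ioc 0 2 μ hμ)]
  have a0 := amp_nonneg hη μ
  have a1 := amp_le hη μ
  have p1 := abs_mul_phi_le hδ hx
  have q0 := phi_nonneg hδ hx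
  have q1 := phi_le_one hδ x
  have q2 : |phi δ x ^ 2| ≤ 1 := by
    rw [abs_of_nonneg (sq_nonneg _)]
    nlinarith
  have hμa : |μ * a'| ≤ 8 := by
    rw [abs_mul, abs_of_pos hμ.1]
    nlinarith [hμ.1, hμ.2, abs_nonneg a']
  have e1 : |amp η μ + μ * a'| ≤ 4 * η + 8 := by
    refine le_trans (abs_add_le _ _) ?_
    rw [abs_of_nonneg a0]
    linarith
  have e2 : |amp η μ ^ 2 + μ * (2 * amp η μ * a')| ≤ 4 * η + 64 * η := by
    refine le_trans (abs_add_le _ _) ?_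
    have : μ * (2 * amp η μ * a') = (2 * amp η μ) * (μ * a') := by ring
    rw [this, abs_of_nonneg (sq_nonneg _), abs_mul, abs_of_nonneg (by positivity : 0 ≤ 2 * amp η μ)]
    have := mul_le_mul (show 2 * amp η μ ≤ 8 * η by linarith) hμa (abs_nonneg _) (by positivity)
    nlinarith
  refine le_trans (abs_sub _ _) ?_
  rw [abs_mul, abs_mul (amp η μ ^ 2 + μ * (2 * amp η μ * a'))]
  have d1 := mul_le_mul e1 p1 (abs_nonneg _) (by positivity)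
  have d2 := mul_le_mul e2 q2 (abs_nonneg _) (by positivity)
  nlinarith

end Pool.Agent.H583Z.Knead
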