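import Pool.Agent.H583Z.Knead.Family

set_option autoImplicit false

namespace Pool.Agent.H583Z.Knead

open Set Filter Topology

/-- structure of one map of the family, given that `hmap` has positive derivative. -/
lemma fam_unimodal {δ η μ : ℝ} (hδ : 0 < δ) (hμ : μ ∈ Ioc (0 : ℝ) 2)
    (hh : ∀ x ∈ Icc (-1 : ℝ) 1, 0 < 1 - amp η μ * deriv (phi δ) x) :
    ∃ c : ℝ, IsUnimodal (fun x => fam δ η x μ) c ∧ Differentiable ℝ (fun x => fam δ η x μ) ∧
      (∀ x ∈ Icc (-1 : ℝ) 1, x < c → 0 < deriv (fun x => fam δ η x μ) x) ∧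
      (∀ x ∈ Icc (-1 : ℝ) 1, c < x → deriv (fun x => fam δ η x μ) x < 0) ∧
      fam δ η c μ = μ - 1 ∧ (μ - 1 ≤ c ↔ hmap δ η μ (μ - 1) ≤ 0) := by
  have hφ : Differentiable ℝ (phi δ) := (phi_smooth hδ).differentiable (by simp)
  have hH : ∀ x, HasDerivAt (hmap δ η μ) (1 - amp η μ * deriv (phi δ) x) x := fun x =>
    (hasDerivAt_id x).fun_sub ((hφ x).hasDerivAt.const_mul (amp η μ))
  have hHc : Continuous (hmap δ η μ) := continuous_iff_continuousAt.2 fun x => (hH x).continuousAt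
  have hm : StrictMonoOn (hmap δ η μ) (Icc (-1) 1) := by
    apply strictMonoOn_of_deriv_pos (convex_Icc _ _) hHc.continuousOn
    intro x hx
    rw [(hH x).deriv]
    exact hh x (interior_subset hx)
  have hl : hmap δ η μ (-1) = -1 := by simp [hmap, phi]
  have hr : hmap δ η μ 1 = 1 := by simp [hmap, phi]
  have hG : ∀ x, HasDerivAt (fun x => fam δ η x μ)
      (-(μ * (2 * hmap δ η μ x * (1 - amp η μ * deriv (phi δ) x)))) x := by
    intro x
    have := (((hH x).fun_pow 2).const_mul μ).const_sub (μ - 1)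
    refine this.congr_deriv ?_
    simp
  obtain ⟨c, hc, hc0⟩ : ∃ c ∈ Icc (-1 : ℝ) 1, hmap δ η μ c = 0 := by
    have := intermediate_value_Icc (show (-1 : ℝ) ≤ 1 by norm_num) hHc.continuousOn
    rw [hl, hr] at this
    exact this ⟨by norm_num, by norm_num⟩
  have m1 : (-1 : ℝ) ∈ Icc (-1 : ℝ) 1 := ⟨le_rfl, by norm_num⟩
  have m2 : (1 : ℝ) ∈ Icc (-1 : ℝ) 1 := ⟨by norm_num, le_rfl⟩
  have hc1 : -1 < c := lt_of_le_of_ne hc.1 (by rintro rfl; rw [hl] at hc0; norm_num at hc0)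
  have hc2 : c < 1 := lt_of_le_of_ne hc.2 (by rintro rfl; rw [hr] at hc0; norm_num at hc0)
  have hpos : ∀ x ∈ Icc (-1 : ℝ) 1, x < c → 0 < deriv (fun x => fam δ η x μ) x := by
    intro x hx hxc
    rw [(hG x).deriv]
    have h1 : hmap δ η μ x < 0 := hc0 ▸ hm hx hc hxc
    have h2 := hh x hx
    have h3 : 2 * hmap δ η μ x * (1 - amp η μ * deriv (phi δ) x) < 0 :=
      mul_neg_of_neg_of_pos (by linarith) h2
    have := mul_neg_of_pos_of_neg hμ.1 h3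
    linarith
  have hneg : ∀ x ∈ Icc (-1 : ℝ) 1, c < x → deriv (fun x => fam δ η x μ) x < 0 := by
    intro x hx hxc
    rw [(hG x).deriv]
    have h1 : 0 < hmap δ η μ x := hc0 ▸ hm hc hx hxc
    have h2 := hh x hx
    have h3 : 0 < 2 * hmap δ η μ x * (1 - amp η μ * deriv (phi δ) x) :=
      mul_pos (by linarith) h2
    have := mul_pos hμ.1 h3
    linarith
  have hGd : Differentiable ℝ (fun x => fam δ η x μ) := fun x => (hG x).differentiableAt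
  refine ⟨c, ⟨hGd.continuous.continuousOn, ?_, ?_, ?_, ⟨hc1, hc2⟩, ?_, ?_⟩, hGd, hpos, hneg,
    ?_, ?_⟩
  · intro x hx
    have a1 : -1 ≤ hmap δ η μ x := hl ▸ hm.monotoneOn m1 hx hx.1
    have a2 : hmap δ η μ x ≤ 1 := hr ▸ hm.monotoneOn hx m2 hx.2
    have a3 : hmap δ η μ x ^ 2 ≤ 1 := by nlinarith
    have a4 := sq_nonneg (hmap δ η μ x)
    have a5 := mul_nonneg hμ.1.le a4
    have a6 := mul_le_mul_of_nonneg_left a3 hμ.1.le
    constructor
    · show -1 ≤ (μ - 1) - μ * (hmap δ η μ x) ^ 2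
      linarith
    · show (μ - 1) - μ * (hmap δ η μ x) ^ 2 ≤ 1
      linarith [hμ.2]
  · show (μ - 1) - μ * (hmap δ η μ (-1)) ^ 2 = -1
    rw [hl]; ring
  · show (μ - 1) - μ * (hmap δ η μ 1) ^ 2 = -1
    rw [hr]; ring
  · apply strictMonoOn_of_deriv_pos (convex_Icc _ _) hGd.continuous.continuousOn
    intro x hx
    rw [interior_Icc] at hx
    exact hpos x ⟨hx.1.le, (hx.2.trans hc2).le⟩ hx.2
  · apply strictAntiOn_of_deriv_neg (convex_Icc _ _) hGd.continuous.continuousOn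
    intro x hx
    rw [interior_Icc] at hx
    exact hneg x ⟨(hc1.trans hx.1).le, hx.2.le⟩ hx.1
  · show (μ - 1) - μ * (hmap δ η μ c) ^ 2 = μ - 1
    rw [hc0]; ring
  · have hmem : μ - 1 ∈ Icc (-1 : ℝ) 1 := ⟨by linarith [hμ.1], by linarith [hμ.2]⟩
    rw [← hc0]
    exact (hm.le_iff_le hmem hc).symm

lemma sign_one (δ η : ℝ) : hmap δ η 1 (1 - 1) ≤ 0 := by
  simp [hmap, amp]

lemma sign_two {δ η : ℝ} (hδ : 0 < δ) (hη : 0 < η) :
    0 < hmap δ η (1 + η / 8) (1 + η / 8 - 1) := by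
  have e : amp η (1 + η / 8) = 4 * η / 65 := by
    unfold amp
    field_simp
    ring
  unfold hmap
  rw [e]
  have := phi_le_one hδ (1 + η / 8 - 1)
  nlinarith

lemma sign_three {δ η : ℝ} (hδ : 0 < δ) (hη : 0 < η) (h1 : 2 * η ≤ δ) (h2 : 4 * η ≤ 1) :
    hmap δ η (1 + η) (1 + η - 1) ≤ 0 := by
  have e : amp η (1 + η) = 2 * η := by
    unfold amp
    field_simp
    ring
  unfold hmap
  rw [e]
  have : 1 / 2 ≤ phi δ (1 + η - 1) := by
    unfold phi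
    rw [le_div_iff₀ (by positivity)]
    have a1 : η ^ 2 ≤ 1 / 16 := by nlinarith
    have a2 : 4 * η ^ 2 ≤ δ ^ 2 := by nlinarith
    have a3 : δ ^ 2 * η ^ 2 ≤ δ ^ 2 * (1 / 16) := by gcongr
    nlinarith
  nlinarith

theorem main (k : ℕ) (ε : ℝ) (hε : 0 < ε) :
    ∃ (G : ℝ → ℝ → ℝ) (c : ℝ → ℝ) (ν : ℝ → ℕ → ℤ),
      ContDiff ℝ ⊤ (Function.uncurry G) ∧
      (∀ μ ∈ Ioc (0 : ℝ) 2, IsUnimodal (fun x => G x μ) (c μ) ∧
        IsKneading (fun x => G x μ) (c μ) (ν μ)) ∧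
      c1dist G < ENNReal.ofReal ε ∧
      (∀ j ≤ k, ∀ μ ∈ Ioc (0 : ℝ) 2, ∀ x ∈ Icc (-1 : ℝ) 1,
        |iteratedDeriv j (fun t => G t μ - quad t μ) x| < ε) ∧
      ¬ (∀ μ ∈ Ioc (0 : ℝ) 2, ∀ μ' ∈ Ioc (0 : ℝ) 2, μ ≤ μ' → LexLe (ν μ) (ν μ')) ∧
      ¬ (∀ μ ∈ Ioc (0 : ℝ) 2, ∀ μ' ∈ Ioc (0 : ℝ) 2, μ ≤ μ' → LexLe (ν μ') (ν μ)) := by
  set δ : ℝ := min 1 (ε / 32) with hδdef
  have hδ : 0 < δ := lt_min one_pos (by positivity)
  have hδ1 : δ ≤ 1 := min_le_left _ _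
  have hδε : δ ≤ ε / 32 := min_le_right _ _
  have hP : ContDiff ℝ ⊤ (fun t => 2 * t * phi δ t) :=
    (contDiff_const.mul contDiff_id).mul (phi_smooth hδ)
  have hQ : ContDiff ℝ ⊤ (fun t => phi δ t ^ 2) := (phi_smooth hδ).pow 2
  obtain ⟨M1, hM1, b1⟩ := bound_iter hP (k + 1)
  obtain ⟨M2, hM2, b2⟩ := bound_iter hQ (k + 1)
  obtain ⟨M3, hM3, b3⟩ := bound_iter (phi_smooth hδ) 1
  set M : ℝ := M1 + M2 + M3 + 1 with hM
  have hM0 : 1 ≤ M := by linarith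
  set η : ℝ := δ / (16 * M) with hηdef
  have hη : 0 < η := by positivity
  have hηM : 16 * η * M = δ := by
    rw [hηdef]; field_simp
  have hηδ : 16 * η ≤ δ := by nlinarith
  have hη1 : 4 * η ≤ 1 := by linarith
  have hh : ∀ μ : ℝ, ∀ x ∈ Icc (-1 : ℝ) 1, 0 < 1 - amp η μ * deriv (phi δ) x := by
    intro μ x hx
    have h1 := b3 1 le_rfl x hx
    rw [iteratedDeriv_one] at h1
    have a0 := amp_nonneg hη μ
    have a1 := amp_le hη μ
    have h2 : amp η μ * deriv (phi δ) x ≤ amp η μ * M :=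
      mul_le_mul_of_nonneg_left (le_trans (le_abs_self _) (by linarith)) a0
    have h3 : amp η μ * M ≤ 4 * η * M := by gcongr
    nlinarith
  have key := fun (μ : ℝ) (hμ : μ ∈ Ioc (0 : ℝ) 2) => fam_unimodal hδ hμ (hh μ)
  choose! c hU hd hpos hneg hval hiff using key
  have key2 := fun (μ : ℝ) (hμ : μ ∈ Ioc (0 : ℝ) 2) =>
    exists_kneading (hU μ hμ) (hd μ hμ) (hpos μ hμ) (hneg μ hμ)
  choose! ν hν using key2
  have hit : ∀ j ≤ k + 1, ∀ μ ∈ Ioc (0 : ℝ) 2, ∀ x ∈ Icc (-1 : ℝ) 1,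
      |iteratedDeriv j (fun t => fam δ η t μ - quad t μ) x| ≤ δ := by
    intro j hj μ hμ x hx
    have := iter_bound (M := M) hδ hη hη1 hμ (le_trans (b1 j hj x hx) (by linarith))
      (le_trans (b2 j hj x hx) (by linarith))
    linarith
  have m1 : (1 : ℝ) ∈ Ioc (0 : ℝ) 2 := ⟨by norm_num, by norm_num⟩
  have m2 : (1 + η / 8 : ℝ) ∈ Ioc (0 : ℝ) 2 := ⟨by linarith, by linarith⟩
  have m3 : (1 + η : ℝ) ∈ Ioc (0 : ℝ) 2 := ⟨by linarith, by linarith⟩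
  have n1 : ν 1 0 = 1 := kneading_zero_pos (hU _ m1) (hpos _ m1) (hν _ m1) (by
    show fam δ η (c 1) 1 ≤ c 1
    rw [hval _ m1]
    exact (hiff _ m1).2 (sign_one δ η))
  have n2 : ν (1 + η / 8) 0 = -1 := kneading_zero_neg (hU _ m2) (hneg _ m2) (hν _ m2) (by
    show c (1 + η / 8) < fam δ η (c (1 + η / 8)) (1 + η / 8)
    rw [hval _ m2]
    exact lt_of_not_ge fun h => absurd ((hiff _ m2).1 h) (not_le.2 (sign_two hδ hη)))
  have n3 : ν (1 + η) 0 = 1 := kneading_zero_pos (hU _ m3) (hpos _ m3) (hν _ m3) (by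
    show fam δ η (c (1 + η)) (1 + η) ≤ c (1 + η)
    rw [hval _ m3]
    exact (hiff _ m3).2 (sign_three hδ hη (by linarith) hη1))
  refine ⟨fam δ η, c, ν, fam_smooth hδ hη, fun μ hμ => ⟨hU μ hμ, hν μ hμ⟩, ?_, ?_, ?_, ?_⟩
  · refine lt_of_le_of_lt (b := ENNReal.ofReal (ε / 2)) ?_
      ((ENNReal.ofReal_lt_ofReal_iff hε).2 (by linarith))
    unfold c1dist
    refine iSup₂_le fun x hx => iSup₂_le fun μ hμ => ENNReal.ofReal_le_ofReal ?_
    have e0 := hit 0 (by omega) μ hμ x hx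
    have e1 := hit 1 (by omega) μ hμ x hx
    rw [iteratedDeriv_zero] at e0
    rw [iteratedDeriv_one] at e1
    have e2 := dmu_bound hδ hδ1 hη hη1 hμ hx
    have hdiff : DifferentiableAt ℝ (fun t => fam δ η t μ - quad t μ) x := by
      apply (hd μ hμ x).fun_sub
      unfold quad
      fun_prop
    rw [hdiff.derivWithin (uniqueDiffOn_Icc (by norm_num) x hx)]
    linarith
  · intro j hj μ hμ x hx
    exact lt_of_le_of_lt (hit j (by omega) μ hμ x hx) (by linarith)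
  · intro h
    exact not_lexLe (by rw [n1, n2]; norm_num) (h _ m1 _ m2 (by linarith))
  · intro h
    exact not_lexLe (by rw [n3, n2]; norm_num) (h _ m2 _ m3 (by linarith))

end Pool.Agent.H583Z.Knead
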